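import Pool.Agent.helper70.FI.SpecQ1

set_option autoImplicit false

namespace Pool.Agent.FI

open Pool.Agent.helper58.DC Pool.Agent.DI Pool.Agent.GR Pool.Agent.OB

theorem QEK (hEVM : EVM_stmt) (hIDM : IDM_stmt) (hB2 : B2_stmt) : QEK_stmt := by
  classical
  intro G _ _ K U hU c f hf x hx
  have := Fintype.ofFinite G
  obtain ⟨hCF, hcc, -, -⟩ := hIDM G K U hU
  have hfin : (IrrOn K : Set (G → ℂ)).Finite := (hB2 G K).1
  have hfinU : U.Finite := hfin.subset hU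
  have h1 : ∀ ψ ∈ IrrOn K, ∑ w : G, eS K U w * ψ (w * x) = (if ψ ∈ U then 1 else 0) * ψ x := by
    intro ψ hψ
    have h2 := (hEVM G K ψ hψ (eS K U) hCF x hx).2
    rw [hcc ψ hψ] at h2
    rw [← h2]
    unfold ev
    rw [finsum_eq_sum_of_fintype]
    refine Finset.sum_congr rfl fun w _ => ?_
    by_cases hw : w ∈ K
    · have h3 := ((hB2 G K).2 ψ hψ).2.1 (w * x) w⁻¹ (K.inv_mem hw)
      have h4 : w⁻¹ * (w * x) * w⁻¹⁻¹ = x * w := by group
      rw [h4] at h3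
      rw [h3]
    · rw [hCF.2 w hw, zero_mul, zero_mul]
  rw [finsum_eq_sum_of_fintype, finsum_mem_eq_finite_toFinset_sum _ hfinU]
  have h5 : ∀ w : G, eS K U w * f (w * x) = ∑ ψ ∈ hfin.toFinset, c ψ * (eS K U w * ψ (w * x)) := by
    intro w
    by_cases hw : w ∈ K
    · rw [hf (w * x) (K.mul_mem hw hx), finsum_mem_eq_finite_toFinset_sum _ hfin, Finset.mul_sum]
      exact Finset.sum_congr rfl fun ψ _ => by ring
    · rw [hCF.2 w hw, zero_mul]
      symm
      refine Finset.sum_eq_zero fun ψ _ => ?_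
      rw [zero_mul, mul_zero]
  rw [Finset.sum_congr rfl fun w _ => h5 w, Finset.sum_comm]
  have h6 : ∀ ψ ∈ hfin.toFinset, ∑ w : G, c ψ * (eS K U w * ψ (w * x)) = if ψ ∈ U then c ψ * ψ x else 0 := by
    intro ψ hψ
    rw [← Finset.mul_sum, h1 ψ (hfin.mem_toFinset.1 hψ)]
    split_ifs
    · rw [one_mul]
    · rw [zero_mul, mul_zero]
  rw [Finset.sum_congr rfl h6, ← Finset.sum_filter]
  refine Finset.sum_congr ?_ fun _ _ => rfl
  ext ψ
  rw [Finset.mem_filter, hfin.mem_toFinset, hfinU.mem_toFinset]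
  exact ⟨fun h => h.2, fun h => ⟨hU h, h⟩⟩

end Pool.Agent.FI
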